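import Pool.Agent.Helper2_Pack.S1
import Pool.Agent.Helper2_Pack.S2
import Pool.Agent.Helper2_Pack.S4

/-!
# Common facts for the modules F4, F5, F6, F7
-/

namespace Pool.Agent.Helper13_Pack

open Pool.Agent.Helper2_Pack
open MeasureTheory Set

/-! ### Numbers -/

theorem mn_le_K (G : Layout) : G.M * G.N ≤ G.K := by
  unfold Layout.K
  rw [Fintype.card_sum, Fintype.card_prod, Fintype.card_fin, Fintype.card_fin]
  exact Nat.le_add_right _ _

theorem N_le_K {G : Layout} (h : G.OK) : G.N ≤ G.K :=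
  (Nat.le_mul_of_pos_left _ h.pos).trans (mn_le_K G)

theorem N_pos (G : Layout) : 0 < G.N := Nat.succ_pos _

theorem one_le_K {G : Layout} (h : G.OK) : 1 ≤ G.K := (N_pos G).trans_le (N_le_K h)

/-- `q` times a large number is small -/
theorem small_mul {q : ℝ} {G : Layout} (h : Small q G) {A : ℝ} (hA : A ≤ 2 ^ (8 * G.K + 60)) :
    q * A ≤ 1 := (mul_le_mul_of_nonneg_left hA h.pos.le).trans h.small

theorem natCast_le_two_pow (n : ℕ) : (n : ℝ) ≤ 2 ^ n := by
  exact_mod_cast Nat.lt_two_pow_self.le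

theorem small_K {q : ℝ} {G : Layout} (h : Small q G) : q * (2 ^ 60 * G.K) ≤ 1 := by
  refine small_mul h ?_
  rw [pow_add, mul_comm]
  refine mul_le_mul_of_nonneg_right ?_ (by positivity)
  refine (natCast_le_two_pow G.K).trans (pow_le_pow_right₀ (by norm_num) (by omega))

/-! ### Tops and floors -/

theorem tents_shift (c g : ℝ) (f h : ℕ → ℝ) (L : List ℕ) (x : ℝ) :
    tents (c + g) (L.map fun p : ℕ => (f p, c + h p)) x =
      c + tents g (L.map fun p : ℕ => (f p, h p)) x := by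
  induction L with
  | nil => rfl
  | cons p L ih =>
    rw [List.map_cons, List.map_cons, tents_cons, tents_cons, ih, ← max_add_add_left]
    congr 1
    simp only
    ring

theorem topF_eq (q : ℝ) (a : Col) (x : ℝ) : topF q a x = 1 + locFloor q a x := by
  have := tents_shift 1 0 (fun p : ℕ => (p : ℝ) / 32) (fun _ => q) a.marks x
  rw [add_zero] at this
  exact this

theorem topF_ge (q : ℝ) (a : Col) (x : ℝ) : 1 ≤ topF q a x := le_tents _ _ _

theorem topF_le {q : ℝ} (hq : 0 < q) (a : Col) (x : ℝ) : topF q a x ≤ 1 + q := by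
  rw [topF_eq]
  have := locFloor_le hq a x
  linarith

/-! ### Motions -/

/-- the position of `g₂` relative to `g₁` -/
noncomputable def relM (g₁ g₂ : Motion) : Motion where
  u := (starRingEnd ℂ) g₁.u * g₂.u
  v := (starRingEnd ℂ) g₁.u * (g₂.v - g₁.v)
  unit := by rw [norm_mul, Complex.norm_conj, g₁.unit, g₂.unit, mul_one]

theorem relM_app (g₁ g₂ : Motion) (z : ℂ) :
    (relM g₁ g₂).app z = (starRingEnd ℂ) g₁.u * (g₂.app z - g₁.v) := by
  show (starRingEnd ℂ) g₁.u * g₂.u * z + (starRingEnd ℂ) g₁.u * (g₂.v - g₁.v) =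
    (starRingEnd ℂ) g₁.u * (g₂.u * z + g₂.v - g₁.v)
  ring

theorem app_relM (g₁ g₂ : Motion) (z : ℂ) : g₁.app ((relM g₁ g₂).app z) = g₂.app z := by
  rw [relM_app]
  exact g₁.homeo.right_inv _

theorem image_relM (g₁ g₂ : Motion) (S : Set ℂ) :
    g₁.app '' ((relM g₁ g₂).app '' S) = g₂.app '' S := by
  rw [image_image]
  exact image_congr fun z _ => app_relM g₁ g₂ z

theorem app_injective (g : Motion) : Function.Injective g.app := g.homeo.injective

/-- the motion `z ↦ z + v` -/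
def shM (v : ℂ) : Motion := ⟨1, v, by simp⟩

theorem norm_conj_sub_one (u : ℂ) : ‖(starRingEnd ℂ) u - 1‖ = ‖u - 1‖ := by
  have : (starRingEnd ℂ) u - 1 = (starRingEnd ℂ) (u - 1) := by simp
  rw [this, Complex.norm_conj]

/-- a motion near a translation moves points almost like the translation -/
theorem app_near {g : Motion} {v : ℂ} {θ η : ℝ} (hu : ‖g.u - 1‖ ≤ θ) (hv : ‖g.v - v‖ ≤ η)
    {z : ℂ} {B : ℝ} (hz : ‖z‖ ≤ B) : ‖g.app z - (z + v)‖ ≤ θ * B + η := by
  have e : g.app z - (z + v) = (g.u - 1) * z + (g.v - v) := by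
    unfold Motion.app
    ring
  rw [e]
  refine (norm_add_le _ _).trans (add_le_add ?_ hv)
  rw [norm_mul]
  exact mul_le_mul hu hz (norm_nonneg _) ((norm_nonneg _).trans hu)

theorem inv_near {g : Motion} {v : ℂ} {θ η : ℝ} (hu : ‖g.u - 1‖ ≤ θ) (hv : ‖g.v - v‖ ≤ η)
    {z : ℂ} {B : ℝ} (hz : ‖z - v‖ ≤ B) :
    ‖(starRingEnd ℂ) g.u * (z - g.v) - (z - v)‖ ≤ θ * B + η := by
  have e : (starRingEnd ℂ) g.u * (z - g.v) - (z - v) =
      ((starRingEnd ℂ) g.u - 1) * (z - v) - (starRingEnd ℂ) g.u * (g.v - v) := by ring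
  rw [e]
  refine (norm_sub_le _ _).trans (add_le_add ?_ ?_)
  · rw [norm_mul, norm_conj_sub_one]
    exact mul_le_mul hu hz (norm_nonneg _) ((norm_nonneg _).trans hu)
  · rw [norm_mul, Complex.norm_conj, g.unit, one_mul]
    exact hv

theorem re_im_near {z w : ℂ} {e : ℝ} (h : ‖z - w‖ ≤ e) :
    w.re - e ≤ z.re ∧ z.re ≤ w.re + e ∧ w.im - e ≤ z.im ∧ z.im ≤ w.im + e := by
  have h1 := abs_le.1 ((Complex.abs_re_le_norm _).trans h)
  have h2 := abs_le.1 ((Complex.abs_im_le_norm _).trans h)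
  rw [Complex.sub_re] at h1
  rw [Complex.sub_im] at h2
  exact ⟨by linarith [h1.1], by linarith [h1.2], by linarith [h2.1], by linarith [h2.2]⟩

/-! ### Coarse placements -/

variable {q : ℝ} {G : Layout}

/-- a piece is near its cell -/
theorem near_cell (hC7 : C7Stmt) (hS : Small q G) {p : Packing q G} {f : Cell G ≃ Cell G}
    (hf : IsCoarse p f) (i : Cell G) {z : ℂ} (hz : z ∈ img q (p.g (f i)) (G.shp (f i))) :
    -(1 / 256) ≤ z.re - (corner i).re ∧ z.re - (corner i).re ≤ 1 + 1 / 256 ∧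
    -(1 / 256) ≤ z.im - (corner i).im ∧ z.im - (corner i).im ≤ 1 + 1 / 256 := by
  have hq60 := hS.le
  have h60 : (1 : ℝ) / 2 ^ 60 ≤ 1 / 2 ^ 20 := by norm_num
  have hq20 : q ≤ 1 / 2 ^ 20 := hq60.trans h60
  obtain ⟨_, h⟩ := hC7 q (1 / 1024) (corner i) (p.g (f i)) hS.pos hq20 (by norm_num) (by norm_num)
    (hf i)
  obtain ⟨h1, h2, h3, h4⟩ := h _ z hz
  rw [Complex.sub_re] at h1 h2
  rw [Complex.sub_im] at h3 h4
  have h5 : q + 2 * (1 / 1024) ≤ 1 / 256 := by
    have : (1 : ℝ) / 2 ^ 20 ≤ 1 / 1024 := by norm_num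
    linarith
  exact ⟨by linarith, by linarith, by linarith, by linarith⟩

theorem corner_inl_re (c : Fin G.M) (r : Fin G.N) : (corner (.inl (c, r) : Cell G)).re = c := rfl

theorem corner_inl_im (c : Fin G.M) (r : Fin G.N) : (corner (.inl (c, r) : Cell G)).im = r := rfl

theorem corner_inr_re (c : {c : Fin G.M // (G.top c).isL = true}) :
    (corner (.inr c : Cell G)).re = c.1 + 1 / 2 := rfl

theorem corner_inr_im (c : {c : Fin G.M // (G.top c).isL = true}) :
    (corner (.inr c : Cell G)).im = G.N := rfl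

/-- the uncovered area bounds the area of every set in the container which meets no piece -/
theorem area_bound (hA2 : A2Stmt) (hG : G.OK) (hS : Small q G) (p : Packing q G)
    (f : Cell G ≃ Cell G) {W : Set ℂ} (h1 : W ⊆ G.cont q)
    (h2 : ∀ i, ∀ z ∈ W, z ∉ img q (p.g (f i)) (G.shp (f i))) :
    volume W ≤ ENNReal.ofReal (64 * G.K * q ^ 3) := by
  refine (measure_mono ?_).trans (hA2 q G p hG hS)
  intro z hz
  refine ⟨h1 hz, ?_⟩
  intro hm
  obtain ⟨i, hi⟩ := mem_iUnion.1 hm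
  refine h2 (f.symm i) z hz ?_
  rw [Equiv.apply_symm_apply]
  exact hi

end Pool.Agent.Helper13_Pack
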