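import Pool.Agent.Helper13_Pack.Base

/-!
# F4: the bottom row
-/

namespace Pool.Agent.Helper13_Pack

open Pool.Agent.Helper2_Pack
open MeasureTheory Set

/-- the bound for the area is admissible in F1 -/
theorem omega_le {q : ℝ} {G : Layout} (hS : Small q G) : 64 * G.K * q ^ 3 ≤ q ^ 2 / 64 := by
  have h1 := small_K hS
  have h2 : (0 : ℝ) ≤ q * G.K := mul_nonneg hS.pos.le (Nat.cast_nonneg _)
  have h3 : q * G.K * 2 ^ 12 ≤ 1 := by
    have : q * (2 ^ 60 * G.K) = q * G.K * 2 ^ 60 := by ring
    rw [this] at h1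
    have h4 : (2 : ℝ) ^ 12 ≤ 2 ^ 60 := by norm_num
    exact (mul_le_mul_of_nonneg_left h4 h2).trans h1
  have e : 64 * G.K * q ^ 3 = q ^ 2 / 64 * (q * G.K * 2 ^ 12) := by ring
  rw [e]
  have h5 : 0 ≤ q ^ 2 / 64 := by positivity
  calc q ^ 2 / 64 * (q * G.K * 2 ^ 12) ≤ q ^ 2 / 64 * 1 := mul_le_mul_of_nonneg_left h3 h5
    _ = q ^ 2 / 64 := mul_one _

theorem omega_out {q : ℝ} {G : Layout} (hG : G.OK) (hq : 0 < q) :
    2 ^ 10 * (64 * G.K * q ^ 3 + q ^ 3) ≤ 2 ^ 17 * G.K * q ^ 3 := by
  have h1 : (1 : ℝ) ≤ G.K := by exact_mod_cast one_le_K hG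
  have h2 : 0 < q ^ 3 := by positivity
  nlinarith

/-- F4 -/
theorem f4 (hF1 : F1Stmt) (hA2 : A2Stmt) (hC7 : C7Stmt) : F4Stmt := by
  intro q G p f hG hS hf c r hr
  have hq := hS.pos
  have hq60 := hS.le
  have hq20 : q ≤ 1 / 2 ^ 20 := hq60.trans (by norm_num)
  have hq1000 : q ≤ 1 / 1000 := hq20.trans (by norm_num)
  obtain ⟨hm, hc1, hc2, hc3, hc4, hc5⟩ := s4 q G hG hS
  set g := p.g (f (.inl (c, r))) with hg
  set s := G.shp (f (.inl (c, r))) with hs
  set a := (G.ty c 0).bot with ha
  obtain ⟨w, hwre, hwim⟩ : ∃ w : ℂ, w.re = -(c : ℝ) ∧ w.im = 1 := ⟨⟨-(c : ℝ), 1⟩, rfl, rfl⟩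
  let h : Motion := ⟨g.u, g.v + w, g.unit⟩
  have happ : ∀ z, h.app z = g.app z + w := by
    intro z
    show g.u * z + (g.v + w) = g.u * z + g.v + w
    ring
  have himg : img q h s = (fun z => z + w) '' img q g s := by
    unfold img
    rw [image_image]
    exact image_congr fun z _ => happ z
  have hmem : ∀ z, z ∈ img q h s ↔ z - w ∈ img q g s := by
    intro z
    rw [himg]
    constructor
    · rintro ⟨y, hy, rfl⟩
      simpa using hy
    · intro hy
      exact ⟨_, hy, by simp⟩
  have hcN : (r : ℝ) = 0 := by rw [hr]; simp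
  have hnc : NearCell (1 / 256) Complex.I h := by
    obtain ⟨h1, h2, k, hk, h3⟩ := hf (.inl (c, r))
    have e : h.app ⟨1 / 2, 1 / 2⟩ - Complex.I = g.app ⟨1 / 2, 1 / 2⟩ - corner (.inl (c, r) : Cell G) := by
      rw [happ]
      apply Complex.ext
      · rw [Complex.sub_re, Complex.add_re, Complex.sub_re, hwre, corner_inl_re, Complex.I_re]
        ring
      · rw [Complex.sub_im, Complex.add_im, Complex.sub_im, hwim, corner_inl_im, Complex.I_im, hcN]
        ring
    refine ⟨?_, ?_, k, hk, ?_⟩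
    · rw [e]
      exact h1.trans (by norm_num)
    · rw [e]
      exact h2.trans (by norm_num)
    · exact h3.trans (by norm_num)
  have hcl : (c : ℕ) < G.M := c.2
  -- below the floor
  have hbelow : ∀ z : ℂ, 1 / 16 < z.re → z.re < 15 / 16 → 1 / 2 < z.im → z.im < topF q a z.re →
      z ∉ interior (img q h s) := by
    intro z h1 h2 h3 h4 h5
    have h6 : z - w ∈ img q g s := (hmem z).1 (interior_subset h5)
    have h7 : z - w ∈ G.cont q := p.sub _ h6
    have hre : (z - w).re = z.re + c := by rw [Complex.sub_re, hwre]; ring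
    have him : (z - w).im = z.im - 1 := by rw [Complex.sub_im, hwim]
    obtain ⟨h8, _⟩ := hc4 _ h7 c hcl (by rw [hre]; linarith) (by rw [hre]; linarith)
    rw [hre, him, add_sub_cancel_right] at h8
    rw [topF_eq] at h4
    linarith
  -- the uncovered area
  have harea : volume ({z : ℂ | 1 / 16 < z.re ∧ z.re < 15 / 16 ∧ topF q a z.re < z.im ∧
      z.im < 3 / 2} \ img q h s) ≤ ENNReal.ofReal (64 * G.K * q ^ 3) := by
    set W := {z : ℂ | 1 / 16 < z.re ∧ z.re < 15 / 16 ∧ topF q a z.re < z.im ∧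
      z.im < 3 / 2} \ img q h s with hW
    have e : volume W = volume ((shM (-w)).app '' W) := ((shM (-w)).volume_image W).symm
    rw [e]
    refine area_bound hA2 hG hS p f ?_ ?_
    · rintro _ ⟨z, ⟨⟨h1, h2, h3, h4⟩, h5⟩, rfl⟩
      have hz : (shM (-w)).app z = z - w := by
        show 1 * z + -w = z - w
        ring
      rw [hz]
      have hre : (z - w).re = z.re + c := by rw [Complex.sub_re, hwre]; ring
      have him : (z - w).im = z.im - 1 := by rw [Complex.sub_im, hwim]
      have hN : (1 : ℝ) ≤ G.N := by exact_mod_cast N_pos G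
      have hcl' := locCeil_lower hq (hG.fine c) (x := z.re) (by linarith) (by linarith)
      have hq4 : q ^ 4 ≤ 1 / 1000 := by
        calc q ^ 4 ≤ (1 / 1000) ^ 4 := pow_le_pow_left₀ hq.le hq1000 4
          _ ≤ 1 / 1000 := by norm_num
      refine hc5 _ c hcl (by rw [hre]; linarith) (by rw [hre]; linarith) ?_ ?_
      · rw [hre, him, add_sub_cancel_right]
        rw [topF_eq] at h3
        linarith
      · rw [hre, him, add_sub_cancel_right]
        linarith
    · rintro i _ ⟨z, ⟨⟨h1, h2, h3, h4⟩, h5⟩, rfl⟩ hzi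
      have hz : (shM (-w)).app z = z - w := by
        show 1 * z + -w = z - w
        ring
      rw [hz] at hzi
      have hre : (z - w).re = z.re + c := by rw [Complex.sub_re, hwre]; ring
      have him : (z - w).im = z.im - 1 := by rw [Complex.sub_im, hwim]
      obtain ⟨h6, h7, h8, h9⟩ := near_cell hC7 hS hf i hzi
      rw [hre] at h6 h7
      rw [him] at h8 h9
      have h3' := topF_ge q a z.re
      rcases i with ⟨c', r'⟩ | c'
      · rw [corner_inl_re] at h6 h7
        rw [corner_inl_im] at h8 h9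
        have e1 : (c' : ℕ) = c := by
          have a1 : (c' : ℝ) < c + 1 := by linarith
          have a2 : (c : ℝ) < c' + 1 := by linarith
          have a1' : (c' : ℕ) < c + 1 := by exact_mod_cast a1
          have a2' : (c : ℕ) < c' + 1 := by exact_mod_cast a2
          omega
        have e2 : (r' : ℕ) = 0 := by
          have a1 : (r' : ℝ) < 1 := by linarith
          have a1' : (r' : ℕ) < 1 := by exact_mod_cast a1
          omega
        have e3 : (c', r') = (c, r) := by
          refine Prod.ext (Fin.ext e1) (Fin.ext ?_)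
          show (r' : ℕ) = r
          rw [e2, hr]
        rw [e3] at hzi
        exact h5 ((hmem z).2 hzi)
      · rw [corner_inr_im] at h8
        have hN : (1 : ℝ) ≤ G.N := by exact_mod_cast N_pos G
        linarith
  obtain ⟨t, h1, h2, h3, h4⟩ := hF1 q (64 * G.K * q ^ 3) a s h hq hq20 (by positivity) (omega_le hS)
    hnc hbelow harea
  have hω := omega_out hG hq
  have hq3 : 0 < q ^ 3 := by positivity
  refine ⟨t, h1, h2, ?_, ?_⟩
  · exact le_trans h3 (by linarith)
  · have e : h.v - Complex.I = g.v - ⟨c, r⟩ := by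
      apply Complex.ext
      · show g.v.re + w.re - Complex.I.re = g.v.re - (c : ℝ)
        rw [hwre, Complex.I_re]
        ring
      · show g.v.im + w.im - Complex.I.im = g.v.im - (r : ℝ)
        rw [hwim, Complex.I_im, hcN]
        ring
    rw [← e]
    exact h4.trans hω

end Pool.Agent.Helper13_Pack
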