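import Pool.Agent.Helper13_Pack.F4

/-!
# F5: from a cell to the cell above it
-/

namespace Pool.Agent.Helper13_Pack

open Pool.Agent.Helper2_Pack
open MeasureTheory Set

theorem norm_le_of_re_im {z : ℂ} {a b : ℝ} (h1 : |z.re| ≤ a) (h2 : |z.im| ≤ b) : ‖z‖ ≤ a + b := by
  have h := Complex.norm_le_abs_re_add_abs_im z
  linarith

/-- a tile covers everything below its top in the middle part -/
theorem mem_interior_tile {q : ℝ} (hq : 0 < q) (hq1 : q ≤ 1 / 1000) (t : Tile) {z : ℂ}
    (h1 : 1 / 16 < z.re) (h2 : z.re < 15 / 16) (h3 : 1 / 2 < z.im) (h4 : z.im < topF q t.top z.re) :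
    z ∈ interior ((Shp.tile t).reg q) := by
  have h5 := cube_small hq hq1
  have h6 := t.xl_le hq
  have h7 := t.le_xr hq
  have h8 : 0 < q ^ 3 := by positivity
  show z ∈ interior (t.sh q).reg
  rw [(t.good hq hq1).interior_eq]
  refine ⟨?_, ?_, ?_, ?_⟩
  · show t.xl q < z.re
    linarith only [hq1, h1, h6]
  · show z.re < t.xr q
    linarith
  · have h9 := t.lo_le hq hq1 (x := z.re) (by linarith)
    linarith
  · show z.im < topF q t.top z.re - cham q (t.xl q) z.re
    rw [cham_eq_zero (by linarith) (by linarith), sub_zero]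
    exact h4

/-- no point of a tile is above its top -/
theorem tile_below {q : ℝ} (t : Tile) {z : ℂ} (h : z ∈ (Shp.tile t).reg q) :
    z.im ≤ topF q t.top z.re := by
  obtain ⟨_, _, _, h4⟩ := h
  have h5 : z.im ≤ topF q t.top z.re - cham q (t.xl q) z.re := h4
  have := cham_nonneg q (t.xl q) z.re
  linarith

theorem disj_img {q : ℝ} {G : Layout} (p : Packing q G) (f : Cell G ≃ Cell G) {i j : Cell G}
    (h : i ≠ j) : Disjoint (interior (img q (p.g (f i)) (G.shp (f i))))
      (interior (img q (p.g (f j)) (G.shp (f j)))) :=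
  p.disj _ _ (fun e => h (f.injective e))

/-- F5 -/
theorem f5 (hF1 : F1Stmt) (hA2 : A2Stmt) (hC7 : C7Stmt) : F5Stmt := by
  intro q G p f hG hS hf c r r' t θ η hr' hst hθq hηq hθ hη
  have hq := hS.pos
  have hq60 := hS.le
  have hq20 : q ≤ 1 / 2 ^ 20 := hq60.trans (by norm_num)
  have hq1000 : q ≤ 1 / 1000 := hq20.trans (by norm_num)
  have hqq : q ^ 2 ≤ 1 / 1000 * (1 / 1000) := by
    rw [pow_two]
    exact mul_le_mul hq1000 hq1000 hq.le (by norm_num)
  obtain ⟨hm, hc1, hc2, hc3, hc4, hc5⟩ := s4 q G hG hS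
  set g₁ := p.g (f (.inl (c, r))) with hg₁
  set g₂ := p.g (f (.inl (c, r'))) with hg₂
  set s := G.shp (f (.inl (c, r'))) with hs
  set h := relM g₁ g₂ with hh
  have hθ2 : ‖g₁.u - 1‖ ≤ q ^ 2 := hθ.trans hθq
  have hη2 : ‖g₁.v - ⟨c, r⟩‖ ≤ q ^ 2 := hη.trans hηq
  have himg : g₁.app '' img q h s = img q g₂ s := image_relM g₁ g₂ _
  have hr'R : (r' : ℝ) = r + 1 := by rw [hr']; push_cast; ring
  have hrN : (r : ℝ) + 2 ≤ G.N := by
    have := r'.2
    have : (r : ℕ) + 2 ≤ G.N := by omega
    exact_mod_cast this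
  have hr0 : (0 : ℝ) ≤ r := Nat.cast_nonneg _
  have hc0 : (0 : ℝ) ≤ c := Nat.cast_nonneg _
  have hcM : (c : ℝ) + 1 ≤ G.M := by
    have : (c : ℕ) + 1 ≤ G.M := c.2
    exact_mod_cast this
  have hne : (Sum.inl (c, r) : Cell G) ≠ .inl (c, r') := by
    intro e
    have := congrArg (fun x : Fin G.M × Fin G.N => (x.2 : ℕ)) (Sum.inl_injective e)
    simp only at this
    omega
  have hnc : NearCell (1 / 256) Complex.I h := by
    obtain ⟨h1, h2, k, hk, h3⟩ := hf (.inl (c, r'))
    rw [Complex.sub_re, corner_inl_re] at h1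
    rw [Complex.sub_im, corner_inl_im] at h2
    set m := g₂.app ⟨1 / 2, 1 / 2⟩ with hm'
    have h4 : ‖m - ⟨c, r⟩‖ ≤ 3 := by
      have e1 : |(m - ⟨c, r⟩ : ℂ).re| ≤ 1 := by
        rw [Complex.sub_re]
        have := abs_le.1 h1
        exact abs_le.2 ⟨by simp only; linarith only [this.1], by simp only; linarith only [this.2]⟩
      have e2 : |(m - ⟨c, r⟩ : ℂ).im| ≤ 2 := by
        rw [Complex.sub_im]
        have := abs_le.1 h2
        rw [hr'R] at this
        exact abs_le.2 ⟨by simp only; linarith only [this.1], by simp only; linarith only [this.2]⟩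
      have := norm_le_of_re_im e1 e2
      linarith only [this]
    have h5 := inv_near hθ2 hη2 h4
    have h6 : h.app ⟨1 / 2, 1 / 2⟩ = (starRingEnd ℂ) g₁.u * (m - g₁.v) := relM_app _ _ _
    rw [← h6] at h5
    have h7 : q ^ 2 * 3 + q ^ 2 ≤ 1 / 1024 := by linarith only [hqq]
    obtain ⟨a1, a2, a3, a4⟩ := re_im_near (h5.trans h7)
    rw [Complex.sub_re] at a1 a2
    rw [Complex.sub_im] at a3 a4
    have b1 := abs_le.1 h1
    have b2 := abs_le.1 h2
    rw [hr'R] at b2
    simp only at a1 a2 a3 a4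
    refine ⟨?_, ?_, k, hk, ?_⟩
    · rw [Complex.sub_re, Complex.I_re]
      exact abs_le.2 ⟨by linarith only [a1, b1.1], by linarith only [a2, b1.2]⟩
    · rw [Complex.sub_im, Complex.I_im]
      exact abs_le.2 ⟨by linarith only [a3, b2.1], by linarith only [a4, b2.2]⟩
    · have e : h.u - Complex.I ^ k = ((starRingEnd ℂ) g₁.u - 1) * g₂.u + (g₂.u - Complex.I ^ k) := by
        show (starRingEnd ℂ) g₁.u * g₂.u - Complex.I ^ k = _
        ring
      rw [e]
      refine (norm_add_le _ _).trans ?_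
      rw [norm_mul, g₂.unit, mul_one, norm_conj_sub_one]
      linarith only [hθq, hqq, hθ, h3]
  -- the lower tile
  have hbelow : ∀ z : ℂ, 1 / 16 < z.re → z.re < 15 / 16 → 1 / 2 < z.im → z.im < topF q t.top z.re →
      z ∉ interior (img q h s) := by
    intro z h1 h2 h3 h4 h5
    have h6 := mem_interior_tile hq hq1000 t h1 h2 h3 h4
    have h7 : g₁.app z ∈ interior (img q g₁ (G.shp (f (.inl (c, r))))) := by
      rw [hst]
      unfold img
      rw [(s2 g₁ _).1]
      exact mem_image_of_mem _ h6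
    have h8 : g₁.app z ∈ interior (img q g₂ s) := by
      rw [← himg, (s2 g₁ _).1]
      exact mem_image_of_mem _ h5
    exact Set.disjoint_left.1 (disj_img p f hne) h7 h8
  -- the uncovered area
  have harea : volume ({z : ℂ | 1 / 16 < z.re ∧ z.re < 15 / 16 ∧ topF q t.top z.re < z.im ∧
      z.im < 3 / 2} \ img q h s) ≤ ENNReal.ofReal (64 * G.K * q ^ 3) := by
    set W := {z : ℂ | 1 / 16 < z.re ∧ z.re < 15 / 16 ∧ topF q t.top z.re < z.im ∧
      z.im < 3 / 2} \ img q h s with hW
    rw [← g₁.volume_image W]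
    have hpos : ∀ z : ℂ, 1 / 16 < z.re → z.re < 15 / 16 → topF q t.top z.re < z.im →
        z.im < 3 / 2 → c + 1 / 16 - 3 * q ^ 2 ≤ (g₁.app z).re ∧
        (g₁.app z).re ≤ c + 15 / 16 + 3 * q ^ 2 ∧ r + 1 - 3 * q ^ 2 ≤ (g₁.app z).im ∧
        (g₁.app z).im ≤ r + 3 / 2 + 3 * q ^ 2 := by
      intro z h1 h2 h3 h4
      have h3' := topF_ge q t.top z.re
      have h5 : ‖z‖ ≤ 2 := by
        have e := Complex.norm_le_abs_re_add_abs_im z
        have e1 : |z.re| ≤ 15 / 16 := abs_le.2 ⟨by linarith only [h1], by linarith only [h2]⟩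
        have e2 : |z.im| ≤ 3 / 2 := abs_le.2 ⟨by linarith only [h3, h3'], by linarith only [h4]⟩
        have e3 := Complex.sq_norm z
        rw [Complex.normSq_apply] at e3
        have e4 : z.re * z.re ≤ 1 := by nlinarith only [abs_le.1 e1]
        have e5 : z.im * z.im ≤ 9 / 4 := by nlinarith only [abs_le.1 e2]
        nlinarith only [e3, e4, e5, norm_nonneg z]
      obtain ⟨a1, a2, a3, a4⟩ := re_im_near (app_near hθ2 hη2 h5)
      rw [Complex.add_re] at a1 a2
      rw [Complex.add_im] at a3 a4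
      simp only at a1 a2 a3 a4
      exact ⟨by linarith only [h1, a1], by linarith only [h2, a2], by linarith only [h3, h3', a3], by linarith only [h4, a4]⟩
    refine area_bound hA2 hG hS p f ?_ ?_
    · rintro _ ⟨z, ⟨⟨h1, h2, h3, h4⟩, h5⟩, rfl⟩
      obtain ⟨a1, a2, a3, a4⟩ := hpos z h1 h2 h3 h4
      exact hc3 _ (by linarith only [hqq, a1]) (by linarith only [hqq, hcM, a2]) (by linarith only [hq60, hqq, a3]) (by linarith only [hq60, hqq, hrN, a4])
    · rintro i _ ⟨z, ⟨⟨h1, h2, h3, h4⟩, h5⟩, rfl⟩ hzi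
      obtain ⟨a1, a2, a3, a4⟩ := hpos z h1 h2 h3 h4
      obtain ⟨h6, h7, h8, h9⟩ := near_cell hC7 hS hf i hzi
      rcases i with ⟨c', r''⟩ | c'
      · rw [corner_inl_re] at h6 h7
        rw [corner_inl_im] at h8 h9
        have e1 : (c' : ℕ) = c := by
          have a1 : (c' : ℝ) < c + 1 := by linarith only [hqq, a2, h6]
          have a2 : (c : ℝ) < c' + 1 := by linarith
          have a1' : (c' : ℕ) < c + 1 := by exact_mod_cast a1
          have a2' : (c : ℕ) < c' + 1 := by exact_mod_cast a2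
          omega
        have e1' : c' = c := Fin.ext e1
        have e2 : (r'' : ℕ) = r ∨ (r'' : ℕ) = r' := by
          have a1 : (r'' : ℝ) < r + 2 := by linarith only [hqq, a4, h8]
          have a2 : (r : ℝ) < r'' + 1 := by linarith only [hqq, a3, h9]
          have a1' : (r'' : ℕ) < r + 2 := by exact_mod_cast a1
          have a2' : (r : ℕ) < r'' + 1 := by exact_mod_cast a2
          omega
        rcases e2 with e2 | e2
        · have e3 : r'' = r := Fin.ext e2
          rw [e1', e3, hst] at hzi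
          obtain ⟨y, hy, hy'⟩ := hzi
          rw [← hg₁] at hy'
          have := app_injective g₁ hy'
          rw [this] at hy
          exact absurd (tile_below t hy) (not_le.2 h3)
        · have e3 : r'' = r' := Fin.ext e2
          rw [e1', e3] at hzi
          have hzi' : g₁.app z ∈ img q g₂ s := hzi
          rw [← himg] at hzi'
          obtain ⟨y, hy, hy'⟩ := hzi'
          have := app_injective g₁ hy'
          rw [this] at hy
          exact h5 hy
      · rw [corner_inr_im] at h8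
        linarith only [hqq, hrN, a4, h8]
  obtain ⟨t', h1, h2, h3, h4⟩ := hF1 q (64 * G.K * q ^ 3) t.top s h hq hq20 (by positivity)
    (omega_le hS) hnc hbelow harea
  have hω := omega_out hG hq
  have hq3 : 0 < q ^ 3 := by positivity
  refine ⟨t', h1, h2, ?_, ?_⟩
  · have e : g₂.u - 1 = g₁.u * (h.u - 1) + (g₁.u - 1) := by
      have e' : g₁.u * h.u = g₂.u := by
        show g₁.u * ((starRingEnd ℂ) g₁.u * g₂.u) = g₂.u
        rw [← mul_assoc, g₁.mul_conj', one_mul]
      rw [mul_sub, e']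
      ring
    rw [e]
    refine (norm_add_le _ _).trans ?_
    rw [norm_mul, g₁.unit, one_mul]
    linarith only [hθ, h3, hω, hq3]
  · have e : g₂.v - ⟨c, r'⟩ = g₁.u * (h.v - Complex.I) + (g₁.u - 1) * Complex.I +
        (g₁.v - ⟨c, r⟩) := by
      have e' : g₁.u * h.v = g₂.v - g₁.v := by
        show g₁.u * ((starRingEnd ℂ) g₁.u * (g₂.v - g₁.v)) = g₂.v - g₁.v
        rw [← mul_assoc, g₁.mul_conj', one_mul]
      have e'' : (⟨c, r'⟩ : ℂ) = ⟨c, r⟩ + Complex.I := by
        apply Complex.ext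
        · show (c : ℝ) = c + Complex.I.re
          rw [Complex.I_re, add_zero]
        · show (r' : ℝ) = r + Complex.I.im
          rw [Complex.I_im, hr'R]
      rw [mul_sub, e', e'']
      ring
    rw [e]
    refine (norm_add_le _ _).trans ?_
    have n1 := norm_add_le (g₁.u * (h.v - Complex.I)) ((g₁.u - 1) * Complex.I)
    rw [norm_mul, norm_mul, g₁.unit, one_mul, Complex.norm_I, mul_one] at n1
    linarith only [hθ, hη, h4, hω, n1]

end Pool.Agent.Helper13_Pack
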