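import Pool.Agent.Helper13_Pack.Base

/-!
# F6: the whole array
-/

namespace Pool.Agent.Helper13_Pack

open Pool.Agent.Helper2_Pack

/-- the tile of a shape -/
def tileOf : Shp → Tile
  | .tile t => t
  | .lever _ => .P

/-- F6 -/
theorem f6 (hF4 : F4Stmt) (hF5 : F5Stmt) : F6Stmt := by
  intro q G p f hG hS hf
  have hq := hS.pos
  set ρ : ℝ := 2 ^ 17 * G.K * q ^ 3 with hρ
  have hρ0 : 0 ≤ ρ := by positivity
  have hbound : ∀ r : ℕ, r < G.N → ((r : ℝ) + 1) * (r + 2) * ρ ≤ q ^ 2 := by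
    intro r hr
    have h1 : r + 2 ≤ G.K + 1 := by
      have := N_le_K hG
      omega
    have h2 : ((r : ℝ) + 1) * (r + 2) * (2 ^ 17 * G.K) ≤ 2 ^ (8 * G.K + 60) := by
      have h3 : (r : ℝ) + 2 ≤ 2 ^ G.K + 1 := by
        have h4 : ((r + 2 : ℕ) : ℝ) ≤ ((G.K + 1 : ℕ) : ℝ) := by exact_mod_cast h1
        push_cast at h4
        have := natCast_le_two_pow G.K
        linarith
      have h5 : (1 : ℝ) ≤ 2 ^ G.K := one_le_pow₀ (by norm_num)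
      have h6 : (r : ℝ) + 2 ≤ 2 * 2 ^ G.K := by linarith
      have h7 : (0 : ℝ) ≤ r := Nat.cast_nonneg _
      have h8 : ((r : ℝ) + 1) * (r + 2) ≤ 2 * 2 ^ G.K * (2 * 2 ^ G.K) :=
        mul_le_mul (by linarith) h6 (by linarith) (by positivity)
      have h9 : (2 : ℝ) ^ 17 * G.K ≤ 2 ^ 17 * 2 ^ G.K :=
        mul_le_mul_of_nonneg_left (natCast_le_two_pow _) (by positivity)
      calc ((r : ℝ) + 1) * (r + 2) * (2 ^ 17 * G.K)
          ≤ 2 * 2 ^ G.K * (2 * 2 ^ G.K) * (2 ^ 17 * 2 ^ G.K) :=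
            mul_le_mul h8 h9 (by positivity) (by positivity)
        _ = 2 ^ (3 * G.K + 19) := by
            rw [pow_add, pow_mul']
            ring
        _ ≤ 2 ^ (8 * G.K + 60) := pow_le_pow_right₀ (by norm_num) (by omega)
    have h3 := small_mul hS h2
    have : ((r : ℝ) + 1) * (r + 2) * ρ = q ^ 2 * (q * (((r : ℝ) + 1) * (r + 2) * (2 ^ 17 * G.K))) := by
      rw [hρ]
      ring
    rw [this]
    have hq2 : 0 ≤ q ^ 2 := by positivity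
    calc q ^ 2 * (q * (((r : ℝ) + 1) * (r + 2) * (2 ^ 17 * G.K))) ≤ q ^ 2 * 1 :=
          mul_le_mul_of_nonneg_left h3 hq2
      _ = q ^ 2 := mul_one _
  have hbound' : ∀ r : ℕ, r < G.N → ((r : ℝ) + 1) * ρ ≤ q ^ 2 := by
    intro r hr
    refine le_trans ?_ (hbound r hr)
    refine mul_le_mul_of_nonneg_right ?_ hρ0
    have : (0 : ℝ) ≤ r := Nat.cast_nonneg _
    nlinarith
  have key : ∀ (c : Fin G.M) (r : ℕ) (hr : r < G.N), ∃ t : Tile,
      G.shp (f (.inl (c, ⟨r, hr⟩))) = .tile t ∧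
      ‖(p.g (f (.inl (c, ⟨r, hr⟩)))).u - 1‖ ≤ (r + 1) * ρ ∧
      ‖(p.g (f (.inl (c, ⟨r, hr⟩)))).v - ⟨c, r⟩‖ ≤ (r + 1) * (r + 2) * ρ := by
    intro c r
    induction r with
    | zero =>
      intro hr
      obtain ⟨t, h1, _, h3, h4⟩ := hF4 q G p f hG hS hf c ⟨0, hr⟩ rfl
      refine ⟨t, h1, h3.trans ?_, ?_⟩
      · rw [← hρ]
        simp
      · have h4' : ‖(p.g (f (.inl (c, ⟨0, hr⟩)))).v - ⟨c, (0 : ℕ)⟩‖ ≤ ρ := h4
        refine h4'.trans ?_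
        push_cast
        linarith
    | succ r ih =>
      intro hr
      obtain ⟨t, h1, h2, h3⟩ := ih (by omega)
      obtain ⟨t', h4, _, h5, h6⟩ := hF5 q G p f hG hS hf c ⟨r, by omega⟩ ⟨r + 1, hr⟩ t _ _ rfl h1
        (hbound' r (by omega)) (hbound r (by omega)) h2 h3
      refine ⟨t', h4, h5.trans ?_, ?_⟩
      · rw [← hρ]
        push_cast
        linarith
      · have h6' : ‖(p.g (f (.inl (c, ⟨r + 1, hr⟩)))).v - ⟨c, (r + 1 : ℕ)⟩‖ ≤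
            (r + 1) * (r + 2) * ρ + (r + 1) * ρ + ρ := h6
        refine h6'.trans ?_
        push_cast
        have : (0 : ℝ) ≤ r := Nat.cast_nonneg _
        nlinarith
  let ty : ℕ → ℕ → Tile := fun c r =>
    if h : c < G.M ∧ r < G.N then tileOf (G.shp (f (.inl (⟨c, h.1⟩, ⟨r, h.2⟩)))) else .P
  have hty : ∀ (c r : ℕ) (hc : c < G.M) (hr : r < G.N) (t : Tile),
      G.shp (f (.inl (⟨c, hc⟩, ⟨r, hr⟩))) = .tile t → ty c r = t := by
    intro c r hc hr t ht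
    show (if h : c < G.M ∧ r < G.N then tileOf (G.shp (f (.inl (⟨c, h.1⟩, ⟨r, h.2⟩)))) else .P) = t
    rw [dif_pos ⟨hc, hr⟩, ht]
    rfl
  refine ⟨ty, ?_, ?_, ?_⟩
  · intro c r
    obtain ⟨t, h1, h2, h3⟩ := key c r.1 r.2
    refine ⟨?_, h2.trans (hbound' _ r.2), h3.trans (hbound _ r.2)⟩
    rw [hty c.1 r.1 c.2 r.2 t h1]
    exact h1
  · intro c r hc hr
    obtain ⟨t, h1, h2, h3⟩ := key ⟨c, hc⟩ r (by omega)
    obtain ⟨t', h4, h5, _, _⟩ := hF5 q G p f hG hS hf ⟨c, hc⟩ ⟨r, by omega⟩ ⟨r + 1, hr⟩ t _ _ rfl h1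
        (hbound' r (by omega)) (hbound r (by omega)) h2 h3
    rw [hty c r hc (by omega) t h1, hty c (r + 1) hc hr t' h4, h5]
  · intro c hc
    obtain ⟨t, h1, h2, _, _⟩ := hF4 q G p f hG hS hf ⟨c, hc⟩ ⟨0, N_pos G⟩ rfl
    rw [hty c 0 hc (N_pos G) t h1, h2]

end Pool.Agent.Helper13_Pack
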