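import Pool.Agent.Helper13_Pack.F5

/-!
# F7: flat ceilings
-/

namespace Pool.Agent.Helper13_Pack

open Pool.Agent.Helper2_Pack
open MeasureTheory Set

theorem col_ext : ∀ a b : Col, (∀ p ∈ a.marks, p ∈ b.marks) → (∀ p ∈ b.marks, p ∈ a.marks) →
    a = b := by
  decide

/-- the height of the ceiling away from the marks -/
theorem flat_le {q : ℝ} (hq : 0 < q) (hq1 : q ≤ 1 / 1000) {a : Col} {o : ℤ}
    (ho : o = -1 ∨ o = 0 ∨ o = 1) {x : ℝ} (h0 : 0 ≤ x) (h1 : x ≤ 1)
    (hx : ∀ p ∈ a.marks, 1 / 64 ≤ |x - (p : ℝ) / 32|) : locCeil q (.flat a o) x ≤ q ^ 4 := by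
  have h3 : 0 < q ^ 3 := by positivity
  have h4 : 0 < q ^ 4 := by positivity
  have h5 := cube_small hq hq1
  have h6 : q ^ 4 ≤ q ^ 3 := by
    have : q ^ 4 = q ^ 3 * q := by ring
    rw [this]
    nlinarith only [h3, hq1]
  have ho' : ((o : ℤ) : ℝ) ≤ 1 := by
    rcases ho with rfl | rfl | rfl <;> norm_num
  have hoq : (o : ℝ) * q ^ 4 ≤ q ^ 4 := by nlinarith only [h4, ho']
  refine max_le ?_ (tents_le ?_ ?_)
  · have hm0 : 0 ≤ min 1 (min (x / (4 * q ^ 3)) ((1 - x) / (4 * q ^ 3))) :=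
      le_min zero_le_one (le_min (by positivity) (div_nonneg (by linarith) (by positivity)))
    have hm1 : min 1 (min (x / (4 * q ^ 3)) ((1 - x) / (4 * q ^ 3))) ≤ 1 := min_le_left _ _
    calc (o : ℝ) * q ^ 4 * min 1 (min (x / (4 * q ^ 3)) ((1 - x) / (4 * q ^ 3)))
        ≤ q ^ 4 * min 1 (min (x / (4 * q ^ 3)) ((1 - x) / (4 * q ^ 3))) :=
          mul_le_mul_of_nonneg_right hoq hm0
      _ ≤ q ^ 4 * 1 := mul_le_mul_of_nonneg_left hm1 h4.le
      _ = q ^ 4 := mul_one _
  · linarith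
  · intro d hd
    obtain ⟨p, hp, rfl⟩ := List.mem_map.1 hd
    have := hx p hp
    show (o : ℝ) * q ^ 4 + q + q ^ 3 - |x - (p : ℝ) / 32| ≤ q ^ 4
    linarith

/-- the height of the ceiling near a mark -/
theorem le_flat {q : ℝ} {a : Col} {o : ℤ} (hq : 0 < q)
    (ho : o = -1 ∨ o = 0 ∨ o = 1) {x : ℝ} {p : ℕ} (hp : p ∈ a.marks) :
    q + q ^ 3 - q ^ 4 - |x - (p : ℝ) / 32| ≤ locCeil q (.flat a o) x := by
  have h4 : 0 < q ^ 4 := by positivity
  have ho' : -1 ≤ ((o : ℤ) : ℝ) := by
    rcases ho with rfl | rfl | rfl <;> norm_num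
  have hoq : -q ^ 4 ≤ (o : ℝ) * q ^ 4 := by nlinarith
  refine le_trans ?_ (le_max_right _ _)
  have hd : ((p : ℝ) / 32, (o : ℝ) * q ^ 4 + q + q ^ 3) ∈
      a.marks.map fun p : ℕ => ((p : ℝ) / 32, (o : ℝ) * q ^ 4 + q + q ^ 3) :=
    List.mem_map.2 ⟨p, hp, rfl⟩
  refine le_trans ?_ (tent_le_tents hd x)
  show q + q ^ 3 - q ^ 4 - |x - (p : ℝ) / 32| ≤ (o : ℝ) * q ^ 4 + q + q ^ 3 - |x - (p : ℝ) / 32|
  linarith

/-- two marks are at distance at least `1 / 32` -/
theorem marks_dist {p p' : ℕ} (h : p ≠ p') : (1 : ℝ) / 32 ≤ |(p : ℝ) / 32 - (p' : ℝ) / 32| := by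
  have e : (p : ℝ) / 32 - (p' : ℝ) / 32 = ((p : ℝ) - p') / 32 := by ring
  rw [e, abs_div, abs_of_pos (by norm_num : (0 : ℝ) < 32)]
  have h1 : (1 : ℝ) ≤ |(p : ℝ) - p'| := by
    have h2 : ((p : ℤ) - (p' : ℤ)) ≠ 0 := by
      intro h3
      apply h
      omega
    have h3 := Int.one_le_abs h2
    have h4 : ((1 : ℤ) : ℝ) ≤ ((|(p : ℤ) - (p' : ℤ)| : ℤ) : ℝ) := by exact_mod_cast h3
    rw [Int.cast_abs] at h4
    push_cast at h4
    exact h4
  exact div_le_div_of_nonneg_right h1 (by norm_num)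

/-- F7 -/
theorem f7 (hA2 : A2Stmt) (hC7 : C7Stmt) : F7Stmt := by
  intro q G p f ty hG hS hf hfa c a o hc htop
  have hq := hS.pos
  have hq60 := hS.le
  have hq20 : q ≤ 1 / 2 ^ 20 := hq60.trans (by norm_num)
  have hq1000 : q ≤ 1 / 1000 := hq20.trans (by norm_num)
  have hqq : q ^ 2 ≤ q * (1 / 1000) := by
    rw [pow_two]
    exact mul_le_mul_of_nonneg_left hq1000 hq.le
  have hq3 : 0 < q ^ 3 := by positivity
  have hq4 : 0 < q ^ 4 := by positivity
  have hq3' := cube_small hq hq1000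
  have hq43 : q ^ 4 ≤ q ^ 3 := by
    have : q ^ 4 = q ^ 3 * q := by ring
    rw [this]
    nlinarith only [hqq]
  obtain ⟨hm, hc1, hc2, hc3, hc4, hc5⟩ := s4 q G hG hS
  have ho := (hG.flat c a o hc htop).2
  have hN0 := N_pos G
  obtain ⟨hst, hθ, hη⟩ := hfa ⟨c, hc⟩ ⟨G.N - 1, by omega⟩
  set i₀ : Cell G := .inl (⟨c, hc⟩, ⟨G.N - 1, by omega⟩) with hi₀
  set g := p.g (f i₀) with hg
  set t := ty c (G.N - 1) with ht
  have hst' : G.shp (f i₀) = .tile t := hst
  set v₀ : ℂ := ⟨c, (G.N - 1 : ℕ)⟩ with hv₀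
  have hη' : ‖g.v - v₀‖ ≤ q ^ 2 := hη
  have hv₀im : v₀.im = (G.N : ℝ) - 1 := by
    show ((G.N - 1 : ℕ) : ℝ) = (G.N : ℝ) - 1
    rw [Nat.cast_sub hN0]
    simp
  have hv₀re : v₀.re = (c : ℝ) := rfl
  have hc0 : (0 : ℝ) ≤ c := Nat.cast_nonneg _
  have hcM : (c : ℝ) + 1 ≤ G.M := by exact_mod_cast hc
  refine col_ext _ _ ?_ ?_
  · -- every bump has a dent
    intro k hk
    by_contra hka
    obtain ⟨hk1, hk2⟩ := marks_range _ k hk
    have hk1' : (10 : ℝ) ≤ k := by exact_mod_cast hk1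
    have hk2' : (k : ℝ) ≤ 29 := by exact_mod_cast hk2
    have hz : (⟨(k : ℝ) / 32, 1 + q⟩ : ℂ) ∈ (Shp.tile t).reg q := by
      have h6 := t.xl_le hq
      have h7 := t.le_xr hq
      refine ⟨?_, ?_, ?_, ?_⟩
      · show t.xl q ≤ (k : ℝ) / 32
        linarith only [hq60, hk1', h6]
      · show (k : ℝ) / 32 ≤ t.xr q
        linarith only [hk2', h7]
      · have h9 := t.lo_le hq hq1000 (x := (k : ℝ) / 32) (by linarith only [hq60, hk1', h6])
        show (t.sh q).lo ((k : ℝ) / 32) ≤ 1 + q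
        linarith
      · show 1 + q ≤ tents 1 (t.top.marks.map fun p : ℕ => ((p : ℝ) / 32, 1 + q)) ((k : ℝ) / 32) -
          cham q (t.xl q) ((k : ℝ) / 32)
        rw [cham_eq_zero (by linarith) (by linarith), sub_zero]
        have hd : ((k : ℝ) / 32, 1 + q) ∈ t.top.marks.map fun p : ℕ => ((p : ℝ) / 32, 1 + q) :=
          List.mem_map.2 ⟨k, hk, rfl⟩
        have := tent_le_tents (g := 1) hd ((k : ℝ) / 32)
        simpa using this
    have hnorm : ‖(⟨(k : ℝ) / 32, 1 + q⟩ : ℂ)‖ ≤ 3 := by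
      have e1 : |(⟨(k : ℝ) / 32, 1 + q⟩ : ℂ).re| ≤ 1 := abs_le.2 ⟨by simp only; linarith only [hk1'], by simp only; linarith only [hk2']⟩
      have e2 : |(⟨(k : ℝ) / 32, 1 + q⟩ : ℂ).im| ≤ 2 := abs_le.2 ⟨by simp only; linarith, by simp only; linarith⟩
      have := norm_le_of_re_im e1 e2
      linarith
    obtain ⟨a1, a2, a3, a4⟩ := re_im_near (app_near hθ hη' hnorm)
    rw [Complex.add_re, hv₀re] at a1 a2
    rw [Complex.add_im, hv₀im] at a3 a4
    simp only at a1 a2 a3 a4
    set w := g.app ⟨(k : ℝ) / 32, 1 + q⟩ with hw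
    have hwc : w ∈ G.cont q := by
      refine p.sub (f i₀) ?_
      rw [hst']
      exact mem_image_of_mem _ hz
    obtain ⟨_, h8⟩ := hc4 w hwc c hc (by linarith only [hq60, hqq, hk1', a1]) (by linarith only [hq60, hqq, hk2', a2])
    rw [htop] at h8
    have h9 : locCeil q (.flat a o) (w.re - c) ≤ q ^ 4 := by
      refine flat_le hq hq1000 ho (by linarith only [hq60, hqq, hk1', a1]) (by linarith only [hq60, hqq, hk2', a2]) ?_
      intro k' hk'
      have hne : k ≠ k' := fun e => hka (e ▸ hk')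
      have h10 := marks_dist hne
      have h11 : |w.re - c - (k : ℝ) / 32| ≤ 1 / 64 := abs_le.2 ⟨by linarith only [hq60, hqq, a1], by linarith⟩
      have h12 := abs_sub_abs_le_abs_sub ((k : ℝ) / 32 - (k' : ℝ) / 32) (w.re - c - (k' : ℝ) / 32)
      have e : (k : ℝ) / 32 - (k' : ℝ) / 32 - (w.re - c - (k' : ℝ) / 32) =
        -(w.re - c - (k : ℝ) / 32) := by ring
      rw [e, abs_neg] at h12
      linarith only [h10, h11, h12]
    linarith only [hqq, hq3, hq3', hq43, a3, h8, h9]
  · -- every dent has a bump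
    intro k hk
    by_contra hkt
    obtain ⟨hk1, hk2⟩ := marks_range _ k hk
    have hk1' : (10 : ℝ) ≤ k := by exact_mod_cast hk1
    have hk2' : (k : ℝ) ≤ 29 := by exact_mod_cast hk2
    have hbox : volume {z : ℂ | c + (k : ℝ) / 32 - q / 4 ≤ z.re ∧ z.re ≤ c + (k : ℝ) / 32 + q / 4 ∧
        G.N + q / 4 ≤ z.im ∧ z.im ≤ G.N + q / 2} ≤ ENNReal.ofReal (64 * G.K * q ^ 3) := by
      refine area_bound hA2 hG hS p f ?_ ?_
      · rintro z ⟨h1, h2, h3, h4⟩
        refine hc5 z c hc (by linarith only [hq60, hk1', h1]) (by linarith only [hq60, hk2', h2]) ?_ ?_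
        · have := locFloor_le hq (G.ty c 0).bot (z.re - c)
          have hN1 : (1 : ℝ) ≤ G.N := by exact_mod_cast hN0
          linarith only [hq60, h3, this, hN1]
        · rw [htop]
          have h5 := le_flat (o := o) hq ho (x := z.re - c) hk
          have h6 : |z.re - c - (k : ℝ) / 32| ≤ q / 4 := abs_le.2 ⟨by linarith only [h1], by linarith only [h2]⟩
          linarith only [hq3, hq3', hq43, h4, h5, h6]
      · rintro i z ⟨h1, h2, h3, h4⟩ hzi
        obtain ⟨h6, h7, h8, h9⟩ := near_cell hC7 hS hf i hzi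
        rcases i with ⟨c', r'⟩ | c'
        · rw [corner_inl_re] at h6 h7
          rw [corner_inl_im] at h8 h9
          have e1 : (c' : ℕ) = c := by
            have a1 : (c' : ℝ) < c + 1 := by linarith only [hq60, hk2', h2, h6]
            have a2 : (c : ℝ) < c' + 1 := by linarith only [hq60, hk1', h1, h7]
            have a1' : (c' : ℕ) < c + 1 := by exact_mod_cast a1
            have a2' : c < (c' : ℕ) + 1 := by exact_mod_cast a2
            omega
          have e2 : (r' : ℕ) = G.N - 1 := by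
            have a2 : (G.N : ℝ) < r' + 2 := by linarith only [hq3, hq3', h3, h9]
            have a2' : G.N < (r' : ℕ) + 2 := by exact_mod_cast a2
            have := r'.2
            omega
          have e3 : (Sum.inl (c', r') : Cell G) = i₀ := by
            rw [hi₀]
            congr 1
            exact Prod.ext (Fin.ext e1) (Fin.ext e2)
          rw [e3, hst'] at hzi
          have hzt : (starRingEnd ℂ) g.u * (z - g.v) ∈ (Shp.tile t).reg q := (g.mem_image _ _).1 hzi
          have h10 : ‖z - v₀‖ ≤ 3 := by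
            have b1 : |(z - v₀).re| ≤ 1 := by
              rw [Complex.sub_re, hv₀re]
              exact abs_le.2 ⟨by linarith only [hq60, hk1', h1], by linarith only [hq60, hk2', h2]⟩
            have b2 : |(z - v₀).im| ≤ 2 := by
              rw [Complex.sub_im, hv₀im]
              exact abs_le.2 ⟨by linarith only [hq3, hq3', h3], by linarith only [hq60, h4]⟩
            have := norm_le_of_re_im b1 b2
            linarith only [this]
          obtain ⟨a1, a2, a3, a4⟩ := re_im_near (inv_near hθ hη' h10)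
          rw [Complex.sub_re, hv₀re] at a1 a2
          rw [Complex.sub_im, hv₀im] at a3 a4
          set y := (starRingEnd ℂ) g.u * (z - g.v) with hy
          have h11 := tile_below t hzt
          have h12 : topF q t.top y.re ≤ 1 := by
            refine tents_le le_rfl ?_
            intro d hd
            obtain ⟨k', hk', rfl⟩ := List.mem_map.1 hd
            have hne : k ≠ k' := fun e => hkt (e ▸ hk')
            have h13 := marks_dist hne
            have h14 : |y.re - (k : ℝ) / 32| ≤ q := abs_le.2 ⟨by linarith only [hqq, hq3, hq3', h1, a1], by linarith only [hqq, hq3, hq3', h2, a2]⟩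
            have h15 := abs_sub_abs_le_abs_sub ((k : ℝ) / 32 - (k' : ℝ) / 32) (y.re - (k' : ℝ) / 32)
            have e : (k : ℝ) / 32 - (k' : ℝ) / 32 - (y.re - (k' : ℝ) / 32) =
              -(y.re - (k : ℝ) / 32) := by ring
            rw [e, abs_neg] at h15
            show 1 + q - |y.re - (k' : ℝ) / 32| ≤ 1
            linarith only [hq60, h13, h14, h15]
          linarith only [hqq, hq3, hq3', h3, a3, h11, h12]
        · rw [corner_inr_re] at h6 h7
          have hL := c'.2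
          have hflat : (G.top (c'.1 : ℕ)).isL = true := hL
          obtain ⟨σ, hσ⟩ : ∃ σ, G.top (c'.1 : ℕ) = .portL σ := by
            cases hh : G.top (c'.1 : ℕ) with
            | portL σ => exact ⟨σ, rfl⟩
            | flat b o' => rw [hh] at hflat; simp [Top.isL] at hflat
            | portR σ => rw [hh] at hflat; simp [Top.isL] at hflat
          obtain ⟨b1, b2⟩ := hG.portL c'.1 σ c'.1.2 hσ
          have e1 : c ≠ (c'.1 : ℕ) := by
            intro e
            rw [← e, htop] at hσ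
            cases hσ
          have e2 : c ≠ (c'.1 : ℕ) + 1 := by
            intro e
            rw [← e, htop] at b2
            cases b2
          rcases Nat.lt_or_gt_of_ne e1 with e3 | e3
          · have : (c : ℝ) + 1 ≤ (c'.1 : ℕ) := by exact_mod_cast e3
            linarith only [hq60, hk2', h2, h6, this]
          · have e4 : (c'.1 : ℕ) + 2 ≤ c := by omega
            have : ((c'.1 : ℕ) : ℝ) + 2 ≤ c := by exact_mod_cast e4
            linarith only [hq60, hk1', h1, h7, this]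
    rw [volume_box (by linarith)] at hbox
    rw [ENNReal.ofReal_le_ofReal_iff (by positivity)] at hbox
    have h1 := small_K hS
    have h2 : (0 : ℝ) ≤ q * G.K := mul_nonneg hq.le (Nat.cast_nonneg _)
    have h3 : q * G.K * 2 ^ 10 ≤ 1 / 2 := by
      have h4 : q * (2 ^ 60 * G.K) = q * G.K * 2 ^ 10 * 2 ^ 50 := by ring
      rw [h4] at h1
      have h5 : (2 : ℝ) ≤ 2 ^ 50 := by norm_num
      linarith only [h1]
    have e : (c + (k : ℝ) / 32 + q / 4 - (c + (k : ℝ) / 32 - q / 4)) *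
        (G.N + q / 2 - (G.N + q / 4)) = q ^ 2 / 8 := by ring
    rw [e] at hbox
    have e' : 64 * G.K * q ^ 3 = q ^ 2 / 8 * (q * G.K * 2 ^ 10) / 2 := by ring
    rw [e'] at hbox
    have h6 : 0 < q ^ 2 := by positivity
    nlinarith only [hq4, hbox, h1]

end Pool.Agent.Helper13_Pack
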